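import Mathlib

/-!
# Project SF: the strong four exponentials for spaces of 2-adic logarithms (MP_dd0d16_nt, last slot)

Coefficients in the field `K` of the algebraic numbers in `ℚ_2` instead of `ℚ` (`Pool/Agent/P8H33/QC`). Every package is a
`def S_X : Prop`; deliver `theorem x : S_X`.
-/

set_option autoImplicit false

open Matrix Polynomial

namespace Pool.Agent.P8H10.SF

/-- `wᵗ M v = 0` for nonzero vectors `w`, `v` with coordinates in `K` -/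
def HasZero (K : Type) {Ω : Type} [Field K] [Field Ω] [Algebra K Ω] (M : Matrix (Fin 2) (Fin 2) Ω) :
    Prop :=
  ∃ w v : Fin 2 → K, w ≠ 0 ∧ v ≠ 0 ∧
    ∑ i, ∑ j, algebraMap K Ω (w i) * M i j * algebraMap K Ω (v j) = 0

/-- **WRE** (adaptation of `four_wreath` in `Pool/Agent/P8H33/QC/Wre.lean`, with `pair_of`, `exists_comb`, `alpha_zero` of
`Core.lean`; about 200 lines). The same proof with `K` in place of `ℚ`: `four_wreath` uses `ℚ` only through the fact that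
the automorphisms fix it, through `Wr.circ` (here the hypothesis on the squares: apply it to
`b i = a i - a (i - 1)`, as in `Wr.circ`), and in `alpha_zero` through the fact that `s ^ 2 + t ^ 2 + r ^ 2 = 0` has only the
trivial solution. If all matrices `m k` are zero, then `M = w` has its entries in `U`. -/
def S_WRE : Prop := ∀ (K Ω : Type) [Field K] [Field Ω] [CharZero Ω] [Algebra K Ω] (ℓ : ℕ)
  [Fact ℓ.Prime], ℓ ≠ 2 → (∀ s t r : K, s ^ 2 + t ^ 2 + r ^ 2 = 0 → s = 0 ∧ t = 0 ∧ r = 0) →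
  ∀ (τ : Ω →+* Ω) (σ : ZMod ℓ → Ω →+* Ω) (x : ZMod ℓ → Ω),
  (∀ c : K, τ (algebraMap K Ω c) = algebraMap K Ω c) →
  (∀ i (c : K), σ i (algebraMap K Ω c) = algebraMap K Ω c) →
  (∀ i, τ (x i) = x (i + 1)) → (∀ i, σ i (x i) = -x i) → (∀ i j, j ≠ i → σ i (x j) = x j) →
  (∀ i, x i ≠ 0) →
  (∀ b : ZMod ℓ → K, ∑ i, b i = 0 → ∑ i, algebraMap K Ω (b i) * x i ^ 2 = 0 → ∀ i, b i = 0) →
  ∀ U : Submodule K Ω, (∀ w ∈ U, τ w = w) → (∀ i, ∀ w ∈ U, σ i w = w) →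
  ∀ M : Matrix (Fin 2) (Fin 2) Ω, (∀ i j, M i j ∈ U ⊔ Submodule.span K (Set.range x)) → M.det = 0 →
    (∀ i j, M i j ∈ U) ∨ HasZero K M

/-- **ALT** (adaptation of `four_add` in `Pool/Agent/P8H33/QC/Core.lean`, with `pair_of`, `exists_comb`, `alpha_zero`,
`Kl.sq_rel`, `Kl.mix`, `Kl.quad`; about 250 lines). The same proof with `K` in place of `ℚ`; in `sq_rel` one uses that
`s ^ 2 + s t + t ^ 2 = 0` has only the trivial solution in `K`. -/
def S_ALT : Prop := ∀ (K Ω : Type) [Field K] [Field Ω] [CharZero Ω] [Algebra K Ω],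
  (∀ s t r : K, s ^ 2 + t ^ 2 + r ^ 2 = 0 → s = 0 ∧ t = 0 ∧ r = 0) →
  (∀ s t : K, s ^ 2 + s * t + t ^ 2 = 0 → s = 0 ∧ t = 0) →
  ∀ (σ τ : Ω →+* Ω) (x y z : Ω), (∀ c : K, τ (algebraMap K Ω c) = algebraMap K Ω c) →
  (∀ c : K, σ (algebraMap K Ω c) = algebraMap K Ω c) →
  σ x = x → σ y = -y → σ z = -z → τ x = y → τ y = z → τ z = x → x ≠ 0 →
  ∀ U : Submodule K Ω, (∀ w ∈ U, τ w = w) → (∀ w ∈ U, σ w = w) →
  ∀ M : Matrix (Fin 2) (Fin 2) Ω, (∀ i j, M i j ∈ U ⊔ Submodule.span K {x, y, z}) → M.det = 0 →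
    (∀ i j, M i j ∈ U) ∨ HasZero K M

/-- **ZER** (about 60 lines). A singular matrix with a zero coefficient.

Proof. Complete `w` and `v` to bases `w, w'` and `v, v'` of `K ^ 2`. The matrix of the numbers `(w, w')ᵗ M (v, v')` has
determinant zero and a zero entry, so `(wᵗ M v') (w'ᵗ M v) = 0`. If `wᵗ M v' = 0` then `wᵗ M = 0`: the rows are
dependent. If `w'ᵗ M v = 0` then `M v = 0`: the columns are dependent. (Or with coordinates: say `w 0 ≠ 0`, `v 0 ≠ 0` etc.) -/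
def S_ZER : Prop := ∀ (K Ω : Type) [Field K] [Field Ω] [Algebra K Ω] (M : Matrix (Fin 2) (Fin 2) Ω),
  HasZero K M → M.det = 0 → ¬ LinearIndependent K M.row ∨ ¬ LinearIndependent K M.col

/-- **TWO** (about 100 lines). Matrices with entries in a space of dimension two, over an algebraically closed field.

Proof. If `y₁`, `y₂` are dependent then the entries are multiples `m i j * y` of one number `y` with `m i j ∈ K`, and
`y ^ 2 * det m = 0`; so (`y = 0` or `det m = 0`) the rows are dependent. If they are independent, `M = y₁ m₁ + y₂ m₂`, and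
`det M = y₁ ^ 2 det m₁ + y₁ y₂ B(m₁, m₂) + y₂ ^ 2 det m₂ = 0`; a nonzero polynomial `a X ^ 2 + b X + c` over `K` with the zero
`y₁ / y₂` would give `y₁ / y₂ ∈ K` (`K` is algebraically closed; `IsAlgClosed`: it splits). So
`det m₁ = det m₂ = B(m₁, m₂) = 0` and all `s m₁ + t m₂` are singular. If `m₁ = 0` or `m₂ = 0` this is clear. Otherwise
`m₁ = u₁ v₁ᵗ`, `m₂ = u₂ v₂ᵗ` and `B(m₁, m₂) = det(u₁, u₂) det(v₁, v₂) = 0` up to the sign: `u₁ ∥ u₂` (a vector `w ≠ 0` with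
`wᵗ m₁ = wᵗ m₂ = 0`: rows dependent) or `v₁ ∥ v₂` (columns). -/
def S_TWO : Prop := ∀ (K Ω : Type) [Field K] [Field Ω] [Algebra K Ω] [IsAlgClosed K] (y₁ y₂ : Ω)
  (M : Matrix (Fin 2) (Fin 2) Ω), (∀ i j, M i j ∈ Submodule.span K {y₁, y₂}) → M.det = 0 →
  ¬ LinearIndependent K M.row ∨ ¬ LinearIndependent K M.col

/-- **ANI** (about 80 lines). Anisotropic forms over `ℚ_2`.

Proof. Divide by the coefficient of the largest norm: all numbers are in `ℤ_2` and one of them is a unit. Modulo 4 the squares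
are `0` and `1` (units), so a sum of three squares with a unit is `1`, `2` or `3` modulo 4. And `s ^ 2 + s t + t ^ 2` is odd if `s`
or `t` is odd. -/
def S_ANI : Prop :=
  (∀ s t r : ℚ_[2], s ^ 2 + t ^ 2 + r ^ 2 = 0 → s = 0 ∧ t = 0 ∧ r = 0) ∧
  ∀ s t : ℚ_[2], s ^ 2 + s * t + t ^ 2 = 0 → s = 0 ∧ t = 0

/-- **EXI** (about 30 new lines). `S_EXW` of `Pool/Agent/P8H33/QC/Stm2.lean` with more of what its proof
(`Pool/Agent/P8H38/QC/Exw.lean`, theorem `exw`) gives: copy the proof, `θ i = aeval (ζ ^ (2 ^ i)) P`, the last condition is `hP`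
(`S_NBE`). Deliver `theorem exi : S_EXI` (the packages `Pool.Agent.P8H23.QC.t_TAU`, `Pool.Agent.P8H62.QC.nbe`,
`Pool.Agent.P8H62.QC.unr`, `Pool.Agent.P8H4.QC.kum` may be taken as hypotheses). -/
def S_EXI : Prop := ∀ ℓ : ℕ, 1 < ℓ → ∃ α r θ : ZMod ℓ → PadicAlgCl 2,
  (∀ i, IsAlgebraic ℚ (α i) ∧ α i ≠ 0 ∧ α i ≠ 1 ∧ ‖α i - 1‖ ≤ 1 / 8) ∧
  (∃ τ σ : PadicAlgCl 2 ≃ₐ[ℚ_[2]] PadicAlgCl 2, (∀ i, τ (α i) = α (i + 1)) ∧ σ (α 0) = (α 0)⁻¹ ∧
    ∀ i, i ≠ 0 → σ (α i) = α i) ∧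
  (∀ i, α i = (1 + 4 * r i) / (1 - 4 * r i)) ∧ (∀ i, r i ^ 2 = 1 + 2 * θ i) ∧
  ∀ S : Finset (ZMod ℓ), S.Nonempty → ‖∑ i ∈ S, θ i‖ = 1

/-- **LSQ** (about 120 lines, Mathlib only). The squares of the logarithms of the numbers in `EXI` satisfy no relation.

Proof. `‖θ i‖ = 1`, `‖r i‖ = 1`. Put `s i = r i ^ 2 = 1 + 2 θ i`. By the power series (for `z = 4 r` and `z = -4 r`)
`L (α i) = 8 (r i) g(s i)`, `g(s) = ∑_k (16 s) ^ k / (2 k + 1)`, `‖g(s) - 1‖ ≤ 1 / 16` (`‖2 k + 1‖ = 1`), so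
`L (α i) ^ 2 = 64 (s i + e i)` with `‖e i‖ ≤ 1 / 16`. Let `∑ b i = 0`, `∑ b i L (α i) ^ 2 = 0`, not all `b i` zero. Divide by the
`b i` of the largest norm, so that all `b i` are in `ℤ_2` and one is a unit. Then
`2 ∑ b i θ i = ∑ b i s i = - ∑ b i e i` has norm at most `1 / 16`. But modulo `2` each `b i` is `0` or `1`, so
`∑ b i θ i = ∑_{i ∈ S} θ i + (norm ≤ 1 / 2)`, `S = {i : ‖b i‖ = 1}` not empty, has norm `1`: a contradiction. -/
def S_LSQ : Prop := ∀ L : PadicAlgCl 2 → PadicAlgCl 2,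
  (∀ x y : PadicAlgCl 2, x ≠ 0 → y ≠ 0 → L (x * y) = L x + L y) →
  (∀ z : PadicAlgCl 2, ‖z‖ < 1 → HasSum (fun n : ℕ =>
    (-1 : PadicAlgCl 2) ^ n * z ^ (n + 1) / ((n : PadicAlgCl 2) + 1)) (L (1 + z))) →
  ∀ (ι : Type) [Fintype ι] (r θ : ι → PadicAlgCl 2), (∀ i, r i ^ 2 = 1 + 2 * θ i) →
  (∀ S : Finset ι, S.Nonempty → ‖∑ i ∈ S, θ i‖ = 1) →
  ∀ b : ι → ℚ_[2], ∑ i, b i = 0 →
    ∑ i, (b i : PadicAlgCl 2) * L ((1 + 4 * r i) / (1 - 4 * r i)) ^ 2 = 0 → ∀ i, b i = 0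

end Pool.Agent.P8H10.SF
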