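import Pool.Agent.P8H10.SF.Ex
import Pool.Agent.P8H46.SF.Zer
import Pool.Agent.P8H45.SF.Exi
import Pool.Agent.P8H26.SF.Two
import Pool.Agent.P8H69.SF.Ani
import Pool.Agent.P8H96.SF.Lsq
import Pool.Agent.P8H78.SF.Wre
import Pool.Agent.P8H78.SF.Alt
import Pool.Agent.P8H23.QC.Tau
import Pool.Agent.P8H62.QC.Nbe
import Pool.Agent.P8H62.QC.Rou
import Pool.Agent.P8H4.QC.Kum

/-!
# Project SF: assembly
-/

set_option autoImplicit false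

open Matrix Module

namespace Pool.Agent.P8H10.SF

open Pool.Agent.W245.PB (IsIwasawaLog)

variable {L : PadicAlgCl 2 → PadicAlgCl 2}

theorem all_wre (hL : IsIwasawaLog 2 L) {ℓ : ℕ}
    [hℓ : Fact ℓ.Prime] (h2 : ℓ ≠ 2) (α : ZMod ℓ → PadicAlgCl 2) (hα : ∀ i, α i ≠ 0)
    (τ σ : PadicAlgCl 2 ≃ₐ[ℚ_[2]] PadicAlgCl 2) (hτ : ∀ i, τ (α i) = α (i + 1))
    (hσ0 : σ (α 0) = (α 0)⁻¹) (hσ : ∀ i, i ≠ 0 → σ (α i) = α i)
    (hsq : ∀ b : ZMod ℓ → KQ 2, ∑ i, b i = 0 → ∑ i, (b i : PadicAlgCl 2) * L (α i) ^ 2 = 0 →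
      ∀ i, b i = 0)
    (U : Submodule (KQ 2) (PadicAlgCl 2)) (hUτ : ∀ w ∈ U, τ w = w) (hUσ : ∀ w ∈ U, σ w = w)
    (M : Matrix (Fin 2) (Fin 2) (PadicAlgCl 2))
    (hM : ∀ i j, M i j ∈ U ⊔ Submodule.span (KQ 2) (Set.range fun i => L (α i))) (hbad : Bad M) :
    ∀ i j, M i j ∈ U :=
  wre_strong Pool.Agent.P8H78.SF.wre Pool.Agent.P8H69.SF.ani Pool.Agent.P8H46.SF.zer hL h2 α hα τ σ
    hτ hσ0 hσ hsq U hUτ hUσ M hM hbad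

theorem all_alt (hL : IsIwasawaLog 2 L)
    (α : Fin 4 → PadicAlgCl 2) (hα : ∀ i, α i ≠ 0) (U : Submodule (KQ 2) (PadicAlgCl 2))
    (hE : ∀ π ∈ alternatingGroup (Fin 4), ∃ σ : PadicAlgCl 2 ≃ₐ[ℚ_[2]] PadicAlgCl 2,
      (∀ i, σ (α i) = α (π i)) ∧ ∀ w ∈ U, σ w = w)
    (hsum : ∑ i, L (α i) ∈ U) (M : Matrix (Fin 2) (Fin 2) (PadicAlgCl 2))
    (hM : ∀ i j, M i j ∈ U ⊔ Submodule.span (KQ 2) (Set.range fun i => L (α i))) (hbad : Bad M) :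
    ∀ i j, M i j ∈ U :=
  alt_strong Pool.Agent.P8H78.SF.alt Pool.Agent.P8H69.SF.ani Pool.Agent.P8H46.SF.zer hL α hα U hE
    hsum M hM hbad

theorem all_two (y₁ y₂ : PadicAlgCl 2) {M : Matrix (Fin 2) (Fin 2) (PadicAlgCl 2)}
    (hM : ∀ i j, M i j ∈ Submodule.span (KQ 2) {y₁, y₂}) : ¬ Bad M :=
  not_bad_two Pool.Agent.P8H26.SF.two y₁ y₂ hM

theorem all_exi : S_EXI :=
  Pool.Agent.P8H45.SF.exi Pool.Agent.P8H23.QC.t_TAU Pool.Agent.P8H62.QC.nbe Pool.Agent.P8H62.QC.unr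
    Pool.Agent.P8H4.QC.kum

theorem all_cyc (hL : IsIwasawaLog 2 L) (ℓ : ℕ) [hℓ : Fact ℓ.Prime] (h2 : ℓ ≠ 2) :
    ∃ α : ZMod ℓ → PadicAlgCl 2, (∀ i, α i ≠ 0 ∧ IsAlgebraic ℚ (α i)) ∧
      LinearIndependent (algebraicClosure ℚ (PadicAlgCl 2)) (fun i => L (α i)) ∧
      ∀ U : Submodule (KQ 2) (PadicAlgCl 2), (∀ w ∈ U, ∃ b : ℚ_[2], (b : PadicAlgCl 2) = w) →
        Disjoint U (Submodule.span (KQ 2) (Set.range fun i => L (α i))) ∧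
        ∀ M : Matrix (Fin 2) (Fin 2) (PadicAlgCl 2),
          (∀ i j, M i j ∈ U ⊔ Submodule.span (KQ 2) (Set.range fun i => L (α i))) → Bad M →
          ∀ i j, M i j ∈ U :=
  exists_cyc Pool.Agent.P8H78.SF.wre Pool.Agent.P8H69.SF.ani Pool.Agent.P8H46.SF.zer
    Pool.Agent.P8H96.SF.lsq all_exi hL ℓ h2

theorem all_quartic (hL : IsIwasawaLog 2 L) :
    ∃ α : Fin 4 → PadicAlgCl 2, Function.Injective α ∧ (∀ i, α i ^ 4 + 2 * α i + 2 = 0) ∧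
      LinearIndependent (algebraicClosure ℚ (PadicAlgCl 2)) ![L (α 0), L (α 1), L (α 2)] ∧
      ∀ U : Submodule (KQ 2) (PadicAlgCl 2), (∀ w ∈ U, ∃ b : ℚ_[2], (b : PadicAlgCl 2) = w) →
        Disjoint U (Submodule.span (KQ 2) (Set.range fun i => L (α i))) ∧
        ∀ M : Matrix (Fin 2) (Fin 2) (PadicAlgCl 2),
          (∀ i j, M i j ∈ U ⊔ Submodule.span (KQ 2) (Set.range fun i => L (α i))) → Bad M →
          ∀ i j, M i j ∈ U :=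
  exists_alt Pool.Agent.P8H78.SF.alt Pool.Agent.P8H69.SF.ani Pool.Agent.P8H46.SF.zer hL

/-- elements of `K b₁ + K b₂` with `b₁`, `b₂` in `ℚ_2` are in `ℚ_2` -/
theorem pair_mem (b₁ b₂ : ℚ_[2]) :
    ∀ w ∈ Submodule.span (KQ 2) {(b₁ : PadicAlgCl 2), (b₂ : PadicAlgCl 2)},
      ∃ b : ℚ_[2], (b : PadicAlgCl 2) = w := by
  intro w hw
  obtain ⟨a, c, rfl⟩ := Submodule.mem_span_pair.1 hw
  refine ⟨toQ a * b₁ + toQ c * b₂, ?_⟩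
  have h1 := toQ_spec a
  have h2 := toQ_spec c
  change algebraMap ℚ_[2] (PadicAlgCl 2) (toQ a * b₁ + toQ c * b₂) = _
  rw [map_add, map_mul, map_mul, h1, h2]
  rfl

end Pool.Agent.P8H10.SF
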