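import Pool.Agent.P8H10.SF.Stm
import Pool.Agent.P8H33.QC.App2
import Pool.Agent.W245.PB.BakerThmP

/-!
# Project SF: application to 2-adic logarithms
-/

set_option autoImplicit false

open Matrix Module

namespace Pool.Agent.P8H10.SF

open Pool.Agent.W245.PB (IsIwasawaLog brumer)
open Pool.Agent.P8H10 (log_gal)
open Pool.Agent.P8H33.QC (Wr wr_of Kl kl_of rh rh_apply fix_conj)

section
variable (p : ℕ) [hp : Fact p.Prime]

/-- the field of the algebraic numbers in `ℚ_p` -/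
noncomputable def KQ : Subfield (PadicAlgCl p) :=
  (algebraicClosure ℚ (PadicAlgCl p)).toSubfield ⊓ (algebraMap ℚ_[p] (PadicAlgCl p)).fieldRange

variable {p}

theorem mem_KQ {c : PadicAlgCl p} : c ∈ KQ p ↔ IsAlgebraic ℚ c ∧ ∃ b : ℚ_[p], (b : PadicAlgCl p) = c := by
  unfold KQ
  rw [Subfield.mem_inf]
  exact Iff.rfl.trans (and_congr mem_algebraicClosure_iff Iff.rfl)

/-- automorphisms fix the field -/
theorem fix_KQ (σ : PadicAlgCl p ≃ₐ[ℚ_[p]] PadicAlgCl p) (c : KQ p) : rh σ (c : PadicAlgCl p) = c := by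
  obtain ⟨b, hb⟩ := (mem_KQ.1 c.2).2
  rw [rh_apply, ← hb]
  exact AlgEquiv.commutes σ b

/-- the element of `ℚ_p` -/
noncomputable def toQ (c : KQ p) : ℚ_[p] := (mem_KQ.1 c.2).2.choose

theorem toQ_spec (c : KQ p) : (toQ c : PadicAlgCl p) = (c : PadicAlgCl p) := (mem_KQ.1 c.2).2.choose_spec

theorem cast_inj {x y : ℚ_[p]} (h : (x : PadicAlgCl p) = y) : x = y :=
  (algebraMap ℚ_[p] (PadicAlgCl p)).injective h

theorem toQ_eq_zero {c : KQ p} (h : toQ c = 0) : c = 0 := by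
  have h1 := toQ_spec c
  rw [h] at h1
  apply Subtype.ext
  rw [← h1]
  exact map_zero (algebraMap ℚ_[p] (PadicAlgCl p))

theorem tern (hA : S_ANI) (s t r : KQ 2) (h : s ^ 2 + t ^ 2 + r ^ 2 = 0) : s = 0 ∧ t = 0 ∧ r = 0 := by
  have h1 : toQ s ^ 2 + toQ t ^ 2 + toQ r ^ 2 = 0 := by
    apply cast_inj
    have h2 := congrArg (fun c : KQ 2 => (c : PadicAlgCl 2)) h
    push_cast at h2 ⊢
    simp only [toQ_spec]
    exact h2
  obtain ⟨e1, e2, e3⟩ := hA.1 _ _ _ h1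
  exact ⟨toQ_eq_zero e1, toQ_eq_zero e2, toQ_eq_zero e3⟩

theorem bina (hA : S_ANI) (s t : KQ 2) (h : s ^ 2 + s * t + t ^ 2 = 0) : s = 0 ∧ t = 0 := by
  have h1 : toQ s ^ 2 + toQ s * toQ t + toQ t ^ 2 = 0 := by
    apply cast_inj
    have h2 := congrArg (fun c : KQ 2 => (c : PadicAlgCl 2)) h
    push_cast at h2 ⊢
    simp only [toQ_spec]
    exact h2
  obtain ⟨e1, e2⟩ := hA.2 _ _ h1
  exact ⟨toQ_eq_zero e1, toQ_eq_zero e2⟩

/-- a zero over `K` is a zero over the algebraic numbers -/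
theorem HasZero.lift {M : Matrix (Fin 2) (Fin 2) (PadicAlgCl p)} (h : HasZero (KQ p) M) :
    HasZero (algebraicClosure ℚ (PadicAlgCl p)) M := by
  obtain ⟨w, v, hw, hv, h⟩ := h
  refine ⟨fun i => ⟨w i, mem_algebraicClosure_iff.2 (mem_KQ.1 (w i).2).1⟩,
    fun i => ⟨v i, mem_algebraicClosure_iff.2 (mem_KQ.1 (v i).2).1⟩, ?_, ?_, ?_⟩
  · intro h0
    apply hw
    funext i
    apply Subtype.ext
    have h5 := congrArg Subtype.val (congrFun h0 i)
    exact h5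
  · intro h0
    apply hv
    funext i
    apply Subtype.ext
    have h5 := congrArg Subtype.val (congrFun h0 i)
    exact h5
  · exact h

/-- rows and columns are independent over the algebraic numbers, the determinant is zero -/
def Bad (M : Matrix (Fin 2) (Fin 2) (PadicAlgCl p)) : Prop :=
  LinearIndependent (algebraicClosure ℚ (PadicAlgCl p)) M.row ∧
    LinearIndependent (algebraicClosure ℚ (PadicAlgCl p)) M.col ∧ M.det = 0

theorem not_bad_of_zero (hZ : S_ZER) {M : Matrix (Fin 2) (Fin 2) (PadicAlgCl p)}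
    (h : HasZero (KQ p) M) : ¬ Bad M := by
  rintro ⟨h1, h2, h3⟩
  rcases hZ _ _ M h.lift h3 with h4 | h4
  · exact h4 h1
  · exact h4 h2

theorem not_bad_two (hT : S_TWO) (y₁ y₂ : PadicAlgCl p) {M : Matrix (Fin 2) (Fin 2) (PadicAlgCl p)}
    (hM : ∀ i j, M i j ∈ Submodule.span (KQ p) {y₁, y₂}) : ¬ Bad M := by
  rintro ⟨h1, h2, h3⟩
  have hM' : ∀ i j, M i j ∈ Submodule.span (algebraicClosure ℚ (PadicAlgCl p)) {y₁, y₂} := by
    intro i j
    obtain ⟨a, b, hab⟩ := Submodule.mem_span_pair.1 (hM i j)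
    refine Submodule.mem_span_pair.2
      ⟨⟨a, mem_algebraicClosure_iff.2 (mem_KQ.1 a.2).1⟩,
        ⟨b, mem_algebraicClosure_iff.2 (mem_KQ.1 b.2).1⟩, ?_⟩
    rw [← hab]
    rfl
  rcases hT _ _ y₁ y₂ M hM' h3 with h4 | h4
  · exact h4 h1
  · exact h4 h2

end

variable {L : PadicAlgCl 2 → PadicAlgCl 2}

/-- **Signed cycles.** -/
theorem wre_strong (hW : S_WRE) (hA : S_ANI) (hZ : S_ZER) (hL : IsIwasawaLog 2 L) {ℓ : ℕ}
    [hℓ : Fact ℓ.Prime] (h2 : ℓ ≠ 2) (α : ZMod ℓ → PadicAlgCl 2) (hα : ∀ i, α i ≠ 0)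
    (τ σ : PadicAlgCl 2 ≃ₐ[ℚ_[2]] PadicAlgCl 2) (hτ : ∀ i, τ (α i) = α (i + 1))
    (hσ0 : σ (α 0) = (α 0)⁻¹) (hσ : ∀ i, i ≠ 0 → σ (α i) = α i)
    (hsq : ∀ b : ZMod ℓ → KQ 2, ∑ i, b i = 0 → ∑ i, (b i : PadicAlgCl 2) * L (α i) ^ 2 = 0 →
      ∀ i, b i = 0)
    (U : Submodule (KQ 2) (PadicAlgCl 2)) (hUτ : ∀ w ∈ U, τ w = w) (hUσ : ∀ w ∈ U, σ w = w)
    (M : Matrix (Fin 2) (Fin 2) (PadicAlgCl 2))
    (hM : ∀ i j, M i j ∈ U ⊔ Submodule.span (KQ 2) (Set.range fun i => L (α i))) (hbad : Bad M) :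
    ∀ i j, M i j ∈ U := by
  by_cases hx : L (α 0) = 0
  · have hz : ∀ i, L (α i) = 0 := by
      intro i
      have h1 : L (α i) = (τ ^ i.val) (L (α 0)) := by
        rw [← log_gal hL _ (hα 0), Pool.Agent.P8H33.QC.iter_pow τ α hτ, ZMod.natCast_zmod_val,
          zero_add]
      rw [h1, hx, map_zero]
    have hbot : Submodule.span (KQ 2) (Set.range fun i => L (α i)) = ⊥ := by
      rw [Submodule.span_eq_bot]
      rintro _ ⟨i, rfl⟩
      exact hz i
    rw [hbot, sup_bot_eq] at hM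
    exact hM
  · have hw := wr_of hL α hα τ σ hτ hσ0 hσ hx
    rcases hW (KQ 2) (PadicAlgCl 2) ℓ h2 (tern hA) (rh τ)
      (fun i => rh (τ ^ i.val * σ * (τ ^ i.val)⁻¹)) (fun i => L (α i)) (fix_KQ τ)
      (fun i => fix_KQ _) hw.tx hw.ss hw.so hw.nx hsq U (fun w hw => hUτ w hw)
      (fun i w hw => fix_conj τ σ (hUτ w hw) (hUσ w hw) _) M hM hbad.2.2 with h | h
    · exact h
    · exact absurd hbad (not_bad_of_zero hZ h)

/-- **The alternating group.** -/
theorem alt_strong (hB : S_ALT) (hA : S_ANI) (hZ : S_ZER) (hL : IsIwasawaLog 2 L)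
    (α : Fin 4 → PadicAlgCl 2) (hα : ∀ i, α i ≠ 0) (U : Submodule (KQ 2) (PadicAlgCl 2))
    (hE : ∀ π ∈ alternatingGroup (Fin 4), ∃ σ : PadicAlgCl 2 ≃ₐ[ℚ_[2]] PadicAlgCl 2,
      (∀ i, σ (α i) = α (π i)) ∧ ∀ w ∈ U, σ w = w)
    (hsum : ∑ i, L (α i) ∈ U) (M : Matrix (Fin 2) (Fin 2) (PadicAlgCl 2))
    (hM : ∀ i j, M i j ∈ U ⊔ Submodule.span (KQ 2) (Set.range fun i => L (α i))) (hbad : Bad M) :
    ∀ i j, M i j ∈ U := by
  obtain ⟨σ, hσ, hσU⟩ := hE Pool.Agent.P8H33.QC.pS Pool.Agent.P8H33.QC.pS_mem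
  obtain ⟨τ, hτ, hτU⟩ := hE Pool.Agent.P8H33.QC.pT Pool.Agent.P8H33.QC.pT_mem
  rw [Fin.sum_univ_four] at hsum
  obtain ⟨t0, t1, t2, t3⟩ := Pool.Agent.P8H33.QC.pT_val
  have ht : ∀ i, rh τ (L (α i)) = L (α (Pool.Agent.P8H33.QC.pT i)) := fun i => by
    rw [rh_apply, ← log_gal hL τ (hα i), hτ]
  have h4 : (4 : PadicAlgCl 2) ≠ 0 := by norm_num
  have hq : ∀ w : PadicAlgCl 2, (((4 : KQ 2)⁻¹ : KQ 2) : PadicAlgCl 2) * w = (1 / 4) * w := by
    intro w
    have h44 : ((4 : KQ 2) : PadicAlgCl 2) = 4 := map_ofNat (KQ 2).subtype 4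
    rw [Subfield.coe_inv, h44, one_div]
  obtain ⟨S, hS⟩ : ∃ S, S = L (α 0) + L (α 1) + L (α 2) + L (α 3) := ⟨_, rfl⟩
  obtain ⟨x, hx'⟩ : ∃ x, x = L (α 0) + L (α 1) - L (α 2) - L (α 3) := ⟨_, rfl⟩
  obtain ⟨y, hy'⟩ : ∃ x, x = L (α 0) + L (α 2) - L (α 1) - L (α 3) := ⟨_, rfl⟩
  obtain ⟨z, hz'⟩ : ∃ x, x = L (α 0) + L (α 3) - L (α 1) - L (α 2) := ⟨_, rfl⟩
  have hle : U ⊔ Submodule.span (KQ 2) (Set.range fun i => L (α i)) ≤
      U ⊔ Submodule.span (KQ 2) {x, y, z} := by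
    refine sup_le le_sup_left ?_
    rw [Submodule.span_le]
    have mS : S ∈ U ⊔ Submodule.span (KQ 2) {x, y, z} := Submodule.mem_sup_left (by rw [hS]; exact hsum)
    have mx : x ∈ U ⊔ Submodule.span (KQ 2) {x, y, z} :=
      Submodule.mem_sup_right (Submodule.subset_span (by simp))
    have my : y ∈ U ⊔ Submodule.span (KQ 2) {x, y, z} :=
      Submodule.mem_sup_right (Submodule.subset_span (by simp))
    have mz : z ∈ U ⊔ Submodule.span (KQ 2) {x, y, z} :=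
      Submodule.mem_sup_right (Submodule.subset_span (by simp))
    have key : ∀ w, w ∈ U ⊔ Submodule.span (KQ 2) {x, y, z} →
        (1 / 4 : PadicAlgCl 2) * w ∈ U ⊔ Submodule.span (KQ 2) {x, y, z} := by
      intro w hw
      rw [← hq]
      exact Submodule.smul_mem _ ((4 : KQ 2)⁻¹) hw
    rintro _ ⟨i, rfl⟩
    fin_cases i
    · have e : L (α 0) = (1 / 4) * (S + x + y + z) := by rw [hS, hx', hy', hz']; ring
      change L (α 0) ∈ _
      rw [e]
      exact key _ (Submodule.add_mem _ (Submodule.add_mem _ (Submodule.add_mem _ mS mx) my) mz)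
    · have e : L (α 1) = (1 / 4) * (S + x - y - z) := by rw [hS, hx', hy', hz']; ring
      change L (α 1) ∈ _
      rw [e]
      exact key _ (Submodule.sub_mem _ (Submodule.sub_mem _ (Submodule.add_mem _ mS mx) my) mz)
    · have e : L (α 2) = (1 / 4) * (S - x + y - z) := by rw [hS, hx', hy', hz']; ring
      change L (α 2) ∈ _
      rw [e]
      exact key _ (Submodule.sub_mem _ (Submodule.add_mem _ (Submodule.sub_mem _ mS mx) my) mz)
    · have e : L (α 3) = (1 / 4) * (S - x - y + z) := by rw [hS, hx', hy', hz']; ring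
      change L (α 3) ∈ _
      rw [e]
      exact key _ (Submodule.add_mem _ (Submodule.sub_mem _ (Submodule.sub_mem _ mS mx) my) mz)
  by_cases hx : L (α 0) + L (α 1) - L (α 2) - L (α 3) = 0
  · have hy : L (α 0) + L (α 2) - L (α 1) - L (α 3) = 0 := by
      have := congrArg (rh τ) hx
      simp only [map_sub, map_add, ht, t0, t1, t2, t3, map_zero] at this
      linear_combination this
    have hz : L (α 0) + L (α 3) - L (α 1) - L (α 2) = 0 := by
      have := congrArg (rh τ) hy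
      simp only [map_sub, map_add, ht, t0, t1, t2, t3, map_zero] at this
      linear_combination this
    intro i j
    have h5 := hle (hM i j)
    have hbot : Submodule.span (KQ 2) ({x, y, z} : Set (PadicAlgCl 2)) = ⊥ := by
      rw [Submodule.span_eq_bot]
      intro w hw
      simp only [Set.mem_insert_iff, Set.mem_singleton_iff] at hw
      rcases hw with rfl | rfl | rfl
      · rw [hx', hx]
      · rw [hy', hy]
      · rw [hz', hz]
    rwa [hbot, sup_bot_eq] at h5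
  · have hk := kl_of hL α hα hσ hτ hx
    rw [← hx', ← hy', ← hz'] at hk
    rcases hB (KQ 2) (PadicAlgCl 2) (tern hA) (bina hA) (rh σ) (rh τ) x y z (fix_KQ τ) (fix_KQ σ)
      hk.sx hk.sy hk.sz hk.tx hk.ty hk.tz hk.nx U (fun w hw => hτU w hw) (fun w hw => hσU w hw) M
      (fun i j => hle (hM i j)) hbad.2.2 with h | h
    · exact h
    · exact absurd hbad (not_bad_of_zero hZ h)

/-- elements of `ℚ_2` are fixed -/
theorem fix_pair {y₁ y₂ : PadicAlgCl 2} (h1 : ∃ b : ℚ_[2], y₁ = b) (h2 : ∃ b : ℚ_[2], y₂ = b)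
    (σ : PadicAlgCl 2 ≃ₐ[ℚ_[2]] PadicAlgCl 2) :
    ∀ w ∈ Submodule.span (KQ 2) {y₁, y₂}, σ w = w := by
  intro w hw
  obtain ⟨a, b, rfl⟩ := Submodule.mem_span_pair.1 hw
  obtain ⟨x, rfl⟩ := h1
  obtain ⟨y, rfl⟩ := h2
  have ha : σ (a : PadicAlgCl 2) = a := fix_KQ σ a
  have hb : σ (b : PadicAlgCl 2) = b := fix_KQ σ b
  change σ ((a : PadicAlgCl 2) * x + (b : PadicAlgCl 2) * y) =
    (a : PadicAlgCl 2) * x + (b : PadicAlgCl 2) * y
  rw [map_add, map_mul, map_mul, ha, hb, show σ (x : PadicAlgCl 2) = x from AlgEquiv.commutes σ x,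
    show σ (y : PadicAlgCl 2) = y from AlgEquiv.commutes σ y]

/-- independence over the algebraic numbers -/
theorem indep_alg {p : ℕ} [hp : Fact p.Prime] {L : PadicAlgCl p → PadicAlgCl p}
    (hL : IsIwasawaLog p L) {ι : Type} [Fintype ι] (α : ι → PadicAlgCl p) (hα0 : ∀ i, α i ≠ 0)
    (halg : ∀ i, IsAlgebraic ℚ (α i)) (hli : LinearIndependent ℚ fun i => L (α i)) :
    LinearIndependent (algebraicClosure ℚ (PadicAlgCl p)) fun i => L (α i) := by
  classical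
  rw [Fintype.linearIndependent_iff]
  intro g hg
  have h := brumer hL α hα0 halg hli 0 isAlgebraic_zero (fun i => (g i : PadicAlgCl p))
    (fun i => mem_algebraicClosure_iff.1 (g i).2) (by
      rw [zero_add, ← hg]
      exact Finset.sum_congr rfl fun i _ => rfl)
  intro i
  exact Subtype.ext (h.2 i)

/-- the fixed vectors meet the span only in zero -/
theorem disj_wr {ℓ : ℕ} [hℓ : Fact ℓ.Prime] {τ : PadicAlgCl 2 →+* PadicAlgCl 2}
    {σ : ZMod ℓ → PadicAlgCl 2 →+* PadicAlgCl 2} {x : ZMod ℓ → PadicAlgCl 2}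
    (h : Wr ℓ τ σ x) (hK : ∀ i (c : KQ 2), σ i (c : PadicAlgCl 2) = c)
    (U : Submodule (KQ 2) (PadicAlgCl 2)) (hU : ∀ i, ∀ w ∈ U, σ i w = w) :
    Disjoint U (Submodule.span (KQ 2) (Set.range x)) := by
  classical
  rw [Submodule.disjoint_def]
  intro w hw hwx
  obtain ⟨g, hg⟩ := (Submodule.mem_span_range_iff_exists_fun (KQ 2)).1 hwx
  have hg' : ∑ i, (g i : PadicAlgCl 2) * x i = w := hg
  have hz : ∀ k, (g k : PadicAlgCl 2) = 0 := by
    intro k
    have e1 := congrArg (σ k) hg'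
    rw [map_sum, hU k w hw, ← Finset.add_sum_erase _ _ (Finset.mem_univ k)] at e1
    have e2 : ∑ i ∈ Finset.univ.erase k, σ k ((g i : PadicAlgCl 2) * x i) =
        ∑ i ∈ Finset.univ.erase k, (g i : PadicAlgCl 2) * x i := by
      refine Finset.sum_congr rfl fun i hi => ?_
      rw [map_mul, hK, h.so k i (Finset.ne_of_mem_erase hi)]
    rw [e2, map_mul, hK, h.ss] at e1
    rw [← Finset.add_sum_erase _ _ (Finset.mem_univ k)] at hg'
    have e3 : (2 * (g k : PadicAlgCl 2)) * x k = 0 := by linear_combination hg' - e1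
    have e4 := (mul_eq_zero.1 e3).resolve_right (h.nx k)
    exact (mul_eq_zero.1 e4).resolve_left two_ne_zero
  rw [← hg']
  refine Finset.sum_eq_zero fun i _ => ?_
  rw [hz i, zero_mul]

end Pool.Agent.P8H10.SF
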