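import Pool.Agent.P8H10.SF.All
import Pool.Agent.P8H33.QC.AppK

/-!
# Project SF: even sign changes (after `Pool/Agent/P8H33/QC/AppK.lean`)
-/

set_option autoImplicit false

open Matrix Module

namespace Pool.Agent.P8H10.SF

open Pool.Agent.W245.PB (IsIwasawaLog)
open Pool.Agent.P8H33.QC (K2 K2_map K2_alg DepK)

variable {L : PadicAlgCl 2 → PadicAlgCl 2}

/-- from one description of `K` to the other -/
noncomputable def ofK2 (c : K2) : KQ 2 :=
  ⟨algebraMap K2 (PadicAlgCl 2) c, mem_KQ.2 ⟨K2_alg c, (c : ℚ_[2]), rfl⟩⟩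

theorem ofK2_spec (c : K2) : (ofK2 c : PadicAlgCl 2) = algebraMap K2 (PadicAlgCl 2) c := rfl

/-- and back -/
noncomputable def toK2 (c : KQ 2) : K2 :=
  ⟨toQ c, mem_algebraicClosure_iff.2 ((isAlgebraic_algebraMap_iff
    (algebraMap ℚ_[2] (PadicAlgCl 2)).injective).1 (by
      have h1 := (mem_KQ.1 c.2).1
      rw [← toQ_spec c] at h1
      exact h1))⟩

theorem toK2_spec (c : KQ 2) : algebraMap K2 (PadicAlgCl 2) (toK2 c) = (c : PadicAlgCl 2) := by
  rw [K2_map]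
  exact toQ_spec c

/-- **Even sign changes.** -/
theorem even_strong (hL : IsIwasawaLog 2 L) {ℓ : ℕ}
    [hℓ : Fact ℓ.Prime] (h2 : ℓ ≠ 2) (hirr : Irreducible (Polynomial.cyclotomic ℓ ℚ_[2]))
    (α : ZMod ℓ → PadicAlgCl 2) (hα : ∀ i, α i ≠ 0)
    (τ σ : PadicAlgCl 2 ≃ₐ[ℚ_[2]] PadicAlgCl 2) (hτ : ∀ i, τ (α i) = α (i + 1))
    (hσ0 : σ (α 0) = (α 0)⁻¹) (hσ1 : σ (α 1) = (α 1)⁻¹) (hσ : ∀ i, i ≠ 0 → i ≠ 1 → σ (α i) = α i)
    (U : Submodule (KQ 2) (PadicAlgCl 2)) (hUτ : ∀ w ∈ U, τ w = w) (hUσ : ∀ w ∈ U, σ w = w)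
    (M : Matrix (Fin 2) (Fin 2) (PadicAlgCl 2))
    (hM : ∀ i j, M i j ∈ U ⊔ Submodule.span (KQ 2) (Set.range fun i => L (α i))) (hbad : Bad M) :
    ∀ i j, M i j ∈ U := by
  let U' : Submodule K2 (PadicAlgCl 2) :=
    { carrier := U
      add_mem' := fun ha hb => U.add_mem ha hb
      zero_mem' := U.zero_mem
      smul_mem' := fun c w hw => by
        have h1 : ofK2 c • w ∈ U := U.smul_mem (ofK2 c) hw
        have h3 : c • w = ofK2 c • w := by
          rw [Algebra.smul_def]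
          rfl
        change c • w ∈ U
        rw [h3]
        exact h1 }
  have hM' : ∀ i j, M i j ∈ U' ⊔ Submodule.span K2 (Set.range fun i => L (α i)) := by
    intro i j
    obtain ⟨u, hu, s, hs, hsum⟩ := Submodule.mem_sup.1 (hM i j)
    obtain ⟨g, hg⟩ := (Submodule.mem_span_range_iff_exists_fun (KQ 2)).1 hs
    rw [← hsum, ← hg]
    refine Submodule.add_mem _ (Submodule.mem_sup_left hu) (Submodule.mem_sup_right ?_)
    refine Submodule.sum_mem _ fun k _ => ?_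
    have h1 : g k • L (α k) = toK2 (g k) • L (α k) := by
      rw [Algebra.smul_def, Algebra.smul_def, toK2_spec]
      rfl
    rw [h1]
    exact Submodule.smul_mem _ _ (Submodule.subset_span ⟨k, rfl⟩)
  rcases Pool.Agent.P8H33.QC.mainK hL h2 hirr α hα τ σ hτ hσ0 hσ1 hσ U' (fun w hw => hUτ w hw)
    (fun w hw => hUσ w hw) M hM' hbad.2.2 with h | h
  · exact fun i j => h i j
  · exact absurd ⟨hbad.1, hbad.2.1⟩ (Pool.Agent.P8H33.QC.not_indep_of_dep h)

/-- **Quartic numbers**, with one more element of `ℚ_2`. -/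
theorem alt_one (hL : IsIwasawaLog 2 L) (α : Fin 4 → PadicAlgCl 2) (hα : ∀ i, α i ≠ 0)
    (hA : ∀ π ∈ alternatingGroup (Fin 4), ∃ σ : PadicAlgCl 2 ≃ₐ[ℚ_[2]] PadicAlgCl 2,
      ∀ i, σ (α i) = α (π i)) (b : ℚ_[2]) (M : Matrix (Fin 2) (Fin 2) (PadicAlgCl 2))
    (hM : ∀ i j, M i j ∈ Submodule.span (KQ 2) {(b : PadicAlgCl 2)} ⊔
      Submodule.span (KQ 2) (Set.range fun i => L (α i))) : ¬ Bad M := by
  intro hbad
  obtain ⟨S, hS⟩ : ∃ S, S = ∑ i, L (α i) := ⟨_, rfl⟩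
  have hU : ∀ π ∈ alternatingGroup (Fin 4), ∃ σ : PadicAlgCl 2 ≃ₐ[ℚ_[2]] PadicAlgCl 2,
      (∀ i, σ (α i) = α (π i)) ∧ ∀ w ∈ Submodule.span (KQ 2) {(b : PadicAlgCl 2), S}, σ w = w := by
    intro π hπ
    obtain ⟨σ, hσ⟩ := hA π hπ
    refine ⟨σ, hσ, fun w hw => ?_⟩
    obtain ⟨a, c, rfl⟩ := Submodule.mem_span_pair.1 hw
    have h1 : ∀ i, σ (L (α i)) = L (α (π i)) := fun i => by
      rw [← Pool.Agent.P8H10.log_gal hL σ (hα i), hσ]
    have h2 : σ S = S := by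
      rw [hS, map_sum]
      simp only [h1]
      exact Equiv.sum_comp π (fun i => L (α i))
    have ha : σ (a : PadicAlgCl 2) = a := fix_KQ σ a
    have hc : σ (c : PadicAlgCl 2) = c := fix_KQ σ c
    change σ ((a : PadicAlgCl 2) * b + (c : PadicAlgCl 2) * S) =
      (a : PadicAlgCl 2) * b + (c : PadicAlgCl 2) * S
    rw [map_add, map_mul, map_mul, ha, hc, h2,
      show σ (b : PadicAlgCl 2) = b from AlgEquiv.commutes σ b]
  have hle : Submodule.span (KQ 2) {(b : PadicAlgCl 2)} ≤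
      Submodule.span (KQ 2) {(b : PadicAlgCl 2), S} :=
    Submodule.span_mono (by
      intro w hw
      rw [Set.mem_singleton_iff] at hw
      rw [hw]
      exact Set.mem_insert _ _)
  have h3 := all_alt hL α hα _ hU (by
    rw [← hS]
    exact Submodule.subset_span (by simp)) M (fun i j => sup_le_sup_right hle _ (hM i j)) hbad
  exact all_two _ _ h3 hbad

end Pool.Agent.P8H10.SF
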