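import Pool.Agent.P8H10.SF.App

/-!
# Project SF: existence
-/

set_option autoImplicit false

open Matrix Module

namespace Pool.Agent.P8H10.SF

open Pool.Agent.W245.PB (IsIwasawaLog brumer)
open Pool.Agent.P8H10 (log_gal)
open Pool.Agent.P8H33.QC (Wr wr_of Kl kl_of rh rh_apply fix_conj)

variable {L : PadicAlgCl 2 → PadicAlgCl 2}

theorem sq_of_lsq (hQ : S_LSQ) (hL : IsIwasawaLog 2 L) {ι : Type} [Fintype ι]
    (α r θ : ι → PadicAlgCl 2) (hα : ∀ i, α i = (1 + 4 * r i) / (1 - 4 * r i))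
    (hr : ∀ i, r i ^ 2 = 1 + 2 * θ i) (hS : ∀ S : Finset ι, S.Nonempty → ‖∑ i ∈ S, θ i‖ = 1)
    (b : ι → KQ 2) (hb : ∑ i, b i = 0) (he : ∑ i, (b i : PadicAlgCl 2) * L (α i) ^ 2 = 0) :
    ∀ i, b i = 0 := by
  intro i
  refine toQ_eq_zero (hQ L hL.mul hL.ser ι r θ hr hS (fun i => toQ (b i)) ?_ ?_ i)
  · apply cast_inj
    have h2 := congrArg (fun c : KQ 2 => (c : PadicAlgCl 2)) hb
    push_cast at h2 ⊢
    simp only [toQ_spec]
    exact h2
  · rw [← he]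
    refine Finset.sum_congr rfl fun i _ => ?_
    rw [toQ_spec, hα i]

/-- **Existence**, for every odd prime. -/
theorem exists_cyc (hW : S_WRE) (hA : S_ANI) (hZ : S_ZER) (hQ : S_LSQ) (hE : S_EXI)
    (hL : IsIwasawaLog 2 L) (ℓ : ℕ) [hℓ : Fact ℓ.Prime] (h2 : ℓ ≠ 2) :
    ∃ α : ZMod ℓ → PadicAlgCl 2, (∀ i, α i ≠ 0 ∧ IsAlgebraic ℚ (α i)) ∧
      LinearIndependent (algebraicClosure ℚ (PadicAlgCl 2)) (fun i => L (α i)) ∧
      ∀ U : Submodule (KQ 2) (PadicAlgCl 2), (∀ w ∈ U, ∃ b : ℚ_[2], (b : PadicAlgCl 2) = w) →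
        Disjoint U (Submodule.span (KQ 2) (Set.range fun i => L (α i))) ∧
        ∀ M : Matrix (Fin 2) (Fin 2) (PadicAlgCl 2),
          (∀ i j, M i j ∈ U ⊔ Submodule.span (KQ 2) (Set.range fun i => L (α i))) → Bad M →
          ∀ i j, M i j ∈ U := by
  obtain ⟨α, r, θ, hα, ⟨τ, σ, hτ, hσ0, hσ⟩, hr, hθ, hS⟩ := hE ℓ hℓ.out.one_lt
  have hα0 : ∀ i, α i ≠ 0 := fun i => (hα i).2.1
  have hx : L (α 0) ≠ 0 := by
    intro h
    refine (hα 0).2.2.1 (hL.eq_one ?_ h)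
    have := (hα 0).2.2.2
    push_cast
    linarith
  have hw := wr_of hL α hα0 τ σ hτ hσ0 hσ hx
  refine ⟨α, fun i => ⟨hα0 i, (hα i).1⟩, indep_alg hL α hα0 (fun i => (hα i).1) hw.indep, ?_⟩
  intro U hU
  have hfix : ∀ ρ : PadicAlgCl 2 ≃ₐ[ℚ_[2]] PadicAlgCl 2, ∀ w ∈ U, ρ w = w := by
    intro ρ w hw
    obtain ⟨b, rfl⟩ := hU w hw
    exact AlgEquiv.commutes ρ b
  refine ⟨disj_wr hw (fun i c => fix_KQ _ c) _ fun i w hw' => by rw [rh_apply]; exact hfix _ w hw',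
    fun M hM hbad => ?_⟩
  exact wre_strong hW hA hZ hL h2 α hα0 τ σ hτ hσ0 hσ
    (sq_of_lsq hQ hL α r θ hr hθ hS) _ (hfix τ) (hfix σ) M hM hbad

/-- fixed elements of the span of four conjugate logarithms with sum zero -/
theorem disj_alt (hL : IsIwasawaLog 2 L) (α : Fin 4 → PadicAlgCl 2) (hα : ∀ i, α i ≠ 0)
    (U : Submodule (KQ 2) (PadicAlgCl 2))
    (hE : ∀ π ∈ alternatingGroup (Fin 4), ∃ σ : PadicAlgCl 2 ≃ₐ[ℚ_[2]] PadicAlgCl 2,
      (∀ i, σ (α i) = α (π i)) ∧ ∀ w ∈ U, σ w = w) (hsum : ∑ i, L (α i) = 0) :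
    Disjoint U (Submodule.span (KQ 2) (Set.range fun i => L (α i))) := by
  classical
  rw [Submodule.disjoint_def]
  intro w hw hwx
  obtain ⟨g, hg⟩ := (Submodule.mem_span_range_iff_exists_fun (KQ 2)).1 hwx
  have hg' : ∑ i, (g i : PadicAlgCl 2) * L (α i) = w := hg
  have key : ∀ π ∈ alternatingGroup (Fin 4), ∑ i, (g i : PadicAlgCl 2) * L (α (π i)) = w := by
    intro π hπ
    obtain ⟨σ, hσ, hσU⟩ := hE π hπ
    rw [← hσU w hw, ← hg', map_sum]
    refine Finset.sum_congr rfl fun i _ => ?_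
    have h1 : σ (g i : PadicAlgCl 2) = g i := fix_KQ σ (g i)
    rw [map_mul, h1, ← log_gal hL σ (hα i), hσ]
  have e1 := key _ Pool.Agent.P8H33.QC.pS_mem
  have e2 := key _ Pool.Agent.P8H33.QC.pU_mem
  have e3 := key _ Pool.Agent.P8H33.QC.pV_mem
  have v1 : Pool.Agent.P8H33.QC.pS 0 = 1 ∧ Pool.Agent.P8H33.QC.pS 1 = 0 ∧
    Pool.Agent.P8H33.QC.pS 2 = 3 ∧ Pool.Agent.P8H33.QC.pS 3 = 2 := by decide
  have v2 : Pool.Agent.P8H33.QC.pU 0 = 2 ∧ Pool.Agent.P8H33.QC.pU 1 = 3 ∧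
    Pool.Agent.P8H33.QC.pU 2 = 0 ∧ Pool.Agent.P8H33.QC.pU 3 = 1 := by decide
  have v3 : Pool.Agent.P8H33.QC.pV 0 = 3 ∧ Pool.Agent.P8H33.QC.pV 1 = 2 ∧
    Pool.Agent.P8H33.QC.pV 2 = 1 ∧ Pool.Agent.P8H33.QC.pV 3 = 0 := by decide
  obtain ⟨a0, a1, a2, a3⟩ := v1
  obtain ⟨b0, b1, b2, b3⟩ := v2
  obtain ⟨c0, c1, c2, c3⟩ := v3
  rw [Fin.sum_univ_four] at hg' e1 e2 e3 hsum
  rw [a0, a1, a2, a3] at e1
  rw [b0, b1, b2, b3] at e2
  rw [c0, c1, c2, c3] at e3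
  have h4 : (4 : PadicAlgCl 2) * w = 0 := by
    linear_combination (-1 : PadicAlgCl 2) * hg' - e1 - e2 - e3 +
      ((g 0 : PadicAlgCl 2) + g 1 + g 2 + g 3) * hsum
  exact (mul_eq_zero.1 h4).resolve_left (by norm_num)

/-- **The example** `X ^ 4 + 2 X + 2`. -/
theorem exists_alt (hB : S_ALT) (hA : S_ANI) (hZ : S_ZER) (hL : IsIwasawaLog 2 L) :
    ∃ α : Fin 4 → PadicAlgCl 2, Function.Injective α ∧ (∀ i, α i ^ 4 + 2 * α i + 2 = 0) ∧
      LinearIndependent (algebraicClosure ℚ (PadicAlgCl 2)) ![L (α 0), L (α 1), L (α 2)] ∧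
      ∀ U : Submodule (KQ 2) (PadicAlgCl 2), (∀ w ∈ U, ∃ b : ℚ_[2], (b : PadicAlgCl 2) = w) →
        Disjoint U (Submodule.span (KQ 2) (Set.range fun i => L (α i))) ∧
        ∀ M : Matrix (Fin 2) (Fin 2) (PadicAlgCl 2),
          (∀ i j, M i j ∈ U ⊔ Submodule.span (KQ 2) (Set.range fun i => L (α i))) → Bad M →
          ∀ i j, M i j ∈ U := by
  classical
  obtain ⟨α, hinj, hroot, hAlt⟩ := Pool.Agent.P8H76.QC.exa Pool.Agent.P8H45.QC.gra
  have hα : ∀ i, α i ≠ 0 := by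
    intro i h
    have := hroot i
    rw [h] at this
    norm_num at this
  have halg : ∀ i, IsAlgebraic ℚ (α i) := by
    intro i
    refine ⟨Polynomial.X ^ 4 + (2 * Polynomial.X + 2), ?_, ?_⟩
    · intro h0
      have h1 := congrArg (fun P : Polynomial ℚ => P.eval 0) h0
      simp at h1
    · have h1 : (Polynomial.aeval (α i)) (2 : Polynomial ℚ) = 2 := map_ofNat _ 2
      simp only [map_add, map_pow, map_mul, Polynomial.aeval_X, h1]
      linear_combination hroot i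
  have hsum : ∑ i, L (α i) = 0 := by
    rw [← hL.prod Finset.univ α (fun i _ => hα i), Pool.Agent.P8H33.QC.prod_two α hinj hroot]
    have := hL.prime
    exact_mod_cast this
  have hfr := Pool.Agent.P8H33.QC.alt_finrank hL α hα hinj hAlt hsum
  have hspan : Submodule.span ℚ (Set.range fun i => L (α i)) =
      Submodule.span ℚ (Set.range fun i : Fin 3 => L (α i.castSucc)) := by
    refine le_antisymm ?_ (Submodule.span_mono ?_)
    · rw [Submodule.span_le]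
      rintro _ ⟨i, rfl⟩
      refine Fin.lastCases ?_ (fun j => ?_) i
      · rw [Fin.sum_univ_castSucc] at hsum
        have h1 : L (α (Fin.last 3)) = -∑ i : Fin 3, L (α i.castSucc) := by
          linear_combination hsum
        change L (α (Fin.last 3)) ∈ _
        rw [h1]
        exact Submodule.neg_mem _ (Submodule.sum_mem _ fun j _ => Submodule.subset_span ⟨j, rfl⟩)
      · exact Submodule.subset_span ⟨j, rfl⟩
    · rintro _ ⟨j, rfl⟩
      exact ⟨j.castSucc, rfl⟩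
  have hli : LinearIndependent ℚ fun i : Fin 3 => L (α i.castSucc) := by
    rw [linearIndependent_iff_card_eq_finrank_span, Set.finrank, ← hspan, hfr, Fintype.card_fin]
  have hli2 := indep_alg hL (fun i : Fin 3 => α i.castSucc) (fun i => hα _) (fun i => halg _) hli
  refine ⟨α, hinj, hroot, ?_, ?_⟩
  · convert hli2 using 1
    funext i
    fin_cases i <;> rfl
  · intro U hU
    have hE : ∀ π ∈ alternatingGroup (Fin 4), ∃ σ : PadicAlgCl 2 ≃ₐ[ℚ_[2]] PadicAlgCl 2,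
        (∀ i, σ (α i) = α (π i)) ∧ ∀ w ∈ U, σ w = w := by
      intro π hπ
      obtain ⟨σ, hσ⟩ := hAlt π hπ
      refine ⟨σ, hσ, fun w hw => ?_⟩
      obtain ⟨b, rfl⟩ := hU w hw
      exact AlgEquiv.commutes σ b
    exact ⟨disj_alt hL α hα U hE hsum, fun M hM hbad =>
      alt_strong hB hA hZ hL α hα U hE (by rw [hsum]; exact Submodule.zero_mem _) M hM hbad⟩

end Pool.Agent.P8H10.SF
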