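import Pool.Agent.P8H10.SF.All

/-!
# Project SF: existence, with the automorphisms and the squares
-/

set_option autoImplicit false

open Matrix Module

namespace Pool.Agent.P8H10.SF

open Pool.Agent.W245.PB (IsIwasawaLog)
open Pool.Agent.P8H33.QC (wr_of rh_apply)

variable {L : PadicAlgCl 2 → PadicAlgCl 2}

/-- **Existence**, for every odd prime. -/
theorem all_cyc2 (hL : IsIwasawaLog 2 L) (ℓ : ℕ) [hℓ : Fact ℓ.Prime] (h2 : ℓ ≠ 2) :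
    ∃ α : ZMod ℓ → PadicAlgCl 2, (∀ i, α i ≠ 0 ∧ IsAlgebraic ℚ (α i)) ∧
      LinearIndependent (algebraicClosure ℚ (PadicAlgCl 2)) (fun i => L (α i)) ∧
      (∀ b : ZMod ℓ → KQ 2, ∑ i, b i = 0 → ∑ i, (b i : PadicAlgCl 2) * L (α i) ^ 2 = 0 →
        ∀ i, b i = 0) ∧
      ∀ U : Submodule (KQ 2) (PadicAlgCl 2), (∀ w ∈ U, ∃ b : ℚ_[2], (b : PadicAlgCl 2) = w) →
        (∃ τ σ : PadicAlgCl 2 ≃ₐ[ℚ_[2]] PadicAlgCl 2, (∀ i, τ (α i) = α (i + 1)) ∧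
          σ (α 0) = (α 0)⁻¹ ∧ (∀ i, i ≠ 0 → σ (α i) = α i) ∧ ∀ w ∈ U, τ w = w ∧ σ w = w) ∧
        Disjoint U (Submodule.span (KQ 2) (Set.range fun i => L (α i))) ∧
        ∀ M : Matrix (Fin 2) (Fin 2) (PadicAlgCl 2),
          (∀ i j, M i j ∈ U ⊔ Submodule.span (KQ 2) (Set.range fun i => L (α i))) → Bad M →
          ∀ i j, M i j ∈ U := by
  obtain ⟨α, r, θ, hα, ⟨τ, σ, hτ, hσ0, hσ⟩, hr, hθ, hS⟩ := all_exi ℓ hℓ.out.one_lt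
  have hα0 : ∀ i, α i ≠ 0 := fun i => (hα i).2.1
  have hx : L (α 0) ≠ 0 := by
    intro h
    refine (hα 0).2.2.1 (hL.eq_one ?_ h)
    have := (hα 0).2.2.2
    push_cast
    linarith
  have hw := wr_of hL α hα0 τ σ hτ hσ0 hσ hx
  refine ⟨α, fun i => ⟨hα0 i, (hα i).1⟩, indep_alg hL α hα0 (fun i => (hα i).1) hw.indep,
    sq_of_lsq Pool.Agent.P8H96.SF.lsq hL α r θ hr hθ hS, ?_⟩
  intro U hU
  have hfix : ∀ ρ : PadicAlgCl 2 ≃ₐ[ℚ_[2]] PadicAlgCl 2, ∀ w ∈ U, ρ w = w := by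
    intro ρ w hw
    obtain ⟨b, rfl⟩ := hU w hw
    exact AlgEquiv.commutes ρ b
  refine ⟨⟨τ, σ, hτ, hσ0, hσ, fun w hw => ⟨hfix τ w hw, hfix σ w hw⟩⟩,
    disj_wr hw (fun i c => fix_KQ _ c) _ fun i w hw' => by rw [rh_apply]; exact hfix _ w hw',
    fun M hM hbad => ?_⟩
  exact all_wre hL h2 α hα0 τ σ hτ hσ0 hσ
    (sq_of_lsq Pool.Agent.P8H96.SF.lsq hL α r θ hr hθ hS) _ (hfix τ) (hfix σ) M hM hbad

end Pool.Agent.P8H10.SF
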